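import Pool.Agent.Q38.GF.Main

/-!
# Powers of the ideals of `n + 1` forms in `n` variables

For `n = 81, 82, 83`, for `100 ≤ n ≤ 119` and for all `n ≥ 121` the prediction of the question for
the Hilbert series of `S/(f₁, …, f_{n+1})^k` fails, for **all** forms `f_i` of degree `d`, all
`d ≥ 2` and all `k ≥ 1`: the algebra does not vanish in degree `d k + 1`. More generally, for every
`e` and all large `n` it does not vanish in degree `d k + e`.

The reason: `n + 1` forms in `n` variables have a point where the Jacobian matrix has corank `r` as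
soon as `n > r (r + 1)`, and the length of the fibre through such a point grows faster than any
power of `r`.
-/

open MvPolynomial

namespace Pool.Agent.Results.MP_c355a0_ag.LargeDimension

/-- The dimension of the part of degree `i` of `K[x_1, …, x_n] / J`, for a homogeneous ideal `J`:
the dimension of the space of forms of degree `i` modulo those in `J`. -/
noncomputable def hilb {K : Type*} [Field K] {n : ℕ} (J : Ideal (MvPolynomial (Fin n) K))
    (i : ℕ) : ℕ :=
  Module.finrank K (homogeneousSubmodule (Fin n) K i ⧸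
    Submodule.comap (homogeneousSubmodule (Fin n) K i).subtype (J.restrictScalars K))

/-- The Hilbert series of `K[x_1, …, x_n] / J`. -/
noncomputable def hilbertSeries {K : Type*} [Field K] {n : ℕ}
    (J : Ideal (MvPolynomial (Fin n) K)) : PowerSeries ℤ :=
  PowerSeries.mk fun i => (hilb J i : ℤ)

/-- The series `H_{n,d,k}` of the question. -/
noncomputable def predicted (n d k : ℕ) : PowerSeries ℤ :=
  PowerSeries.mk fun i =>
    if i < d * k then ((i + n - 1).choose (n - 1) : ℤ)
    else if i = d * k then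
      ((d * k + n - 1).choose (n - 1) : ℤ) - ((k + n).choose n : ℤ) +
        ((k - d ^ (n - 1) + n).choose n : ℤ)
    else 0

/-- The condition on `n` in degree `d k + 1`. -/
def InRange (n : ℕ) : Prop := 81 ≤ n ∧ n ≤ 83 ∨ 100 ≤ n ∧ n ≤ 119 ∨ 121 ≤ n

open Pool.Agent.Q38.GF in
theorem main {K : Type*} [Field K] [Infinite K] (n d k e r s : ℕ) (hn : (r + 1) ^ 2 ≤ n)
    (hnum : (n + e - 1).choose e + (r + 1) * (r + (s - 2)).choose (s - 2) < (r + s).choose s)
    (hd : 2 ≤ d) (hs : s ≤ d * k + e) (f : Fin (n + 1) → MvPolynomial (Fin n) K)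
    (hf : ∀ i, (f i).IsHomogeneous d) : hilb (Ideal.span (Set.range f) ^ k) (d * k + e) ≠ 0 := by
  classical
  intro hz
  have hfin : Module.Finite K (homogeneousSubmodule (Fin n) K (d * k + e)) :=
    Module.Finite.iff_fg.2 (homogeneousSubmodule_fg _ _ _)
  rw [hilb, Module.finrank_zero_iff, Submodule.Quotient.subsingleton_iff] at hz
  have hall : ∀ P : MvPolynomial (Fin n) K, P.IsHomogeneous (d * k + e) →
      P ∈ Ideal.span (Set.range f) ^ k := by
    intro P hP
    have : (⟨P, hP⟩ : homogeneousSubmodule (Fin n) K (d * k + e)) ∈ (⊤ : Submodule K _) :=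
      Submodule.mem_top
    rw [← hz] at this
    exact this
  have hr : r * (r + 1) + r + 1 = (r + 1) ^ 2 := by ring
  let U := Fin (n - 1 - r)
  let ι : Fin r × Fin (r + 1) → U := fun p =>
    Fin.castLE (by omega) (finProdFinEquiv p)
  have hι : Function.Injective ι := (Fin.castLE_injective _).comp finProdFinEquiv.injective
  have hr1 : r + 1 ≤ n := (Nat.le_self_pow two_ne_zero (r + 1)).trans hn
  have hcV : Fintype.card (Option (Fin r ⊕ U)) = n := by
    simp only [Fintype.card_option, Fintype.card_sum, Fintype.card_fin, U]; omega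
  have hcW : Fintype.card (Option (U ⊕ Fin (r + 1))) = n + 1 := by
    simp only [Fintype.card_option, Fintype.card_sum, Fintype.card_fin, U]; omega
  let eV := Fintype.equivFinOfCardEq hcV
  let eW := Fintype.equivFinOfCardEq hcW
  have hnum' : (Mon (Option (Fin r ⊕ U)) e).card + (r + 1) * (r + (s - 2)).choose (s - 2) <
      (r + s).choose s := by
    rw [Finset.card_finsuppAntidiag_nat_eq_choose, Finset.card_univ, hcV]
    exact hnum
  refine not_good d k e s hd ι hι hs hnum' (fun w => rename eV.symm (f (eW w)))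
    (fun w => (hf _).rename_isHomogeneous) fun P hP => ?_
  have h1 := hall (rename eV P) hP.rename_isHomogeneous
  have h2 := Ideal.mem_map_of_mem (rename eV.symm : MvPolynomial (Fin n) K →ₐ[K] _) h1
  rw [Ideal.map_pow, Ideal.map_span, ← Set.range_comp, rename_rename, Equiv.symm_comp_self,
    rename_id_apply] at h2
  have h3 : Set.range (fun w => rename eV.symm (f (eW w))) =
      Set.range (⇑(rename eV.symm : MvPolynomial (Fin n) K →ₐ[K] _) ∘ f) := by
    have : (fun w => rename eV.symm (f (eW w))) =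
        (⇑(rename eV.symm : MvPolynomial (Fin n) K →ₐ[K] _) ∘ f) ∘ eW := rfl
    rw [this, EquivLike.range_comp]
  rw [h3]
  exact h2

lemma six_mul_choose (r : ℕ) : 6 * (r + 3).choose 3 = (r + 3) * (r + 2) * (r + 1) := by
  have h := Nat.ascFactorial_eq_factorial_mul_choose r 3
  simp only [Nat.ascFactorial, Nat.factorial] at h
  nlinarith [h]

theorem degree_succ {K : Type*} [Field K] [Infinite K] (n d k : ℕ) (hn : InRange n)
    (hd : 2 ≤ d) (hk : 1 ≤ k) (f : Fin (n + 1) → MvPolynomial (Fin n) K)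
    (hf : ∀ i, (f i).IsHomogeneous d) : hilb (Ideal.span (Set.range f) ^ k) (d * k + 1) ≠ 0 := by
  have hs : 3 ≤ d * k + 1 := by nlinarith
  rcases hn with ⟨h1, h2⟩ | ⟨h1, h2⟩ | h1
  · refine main n d k 1 8 3 (by omega) ?_ hd hs f hf
    have e1 : (8 + 3).choose 3 = 165 := by decide
    rw [e1]
    simp
    omega
  · refine main n d k 1 9 3 (by omega) ?_ hd hs f hf
    have e1 : (9 + 3).choose 3 = 220 := by decide
    rw [e1]
    simp
    omega
  · obtain ⟨r, hr⟩ : ∃ r, Nat.sqrt n = r + 1 :=
      ⟨Nat.sqrt n - 1, by have := Nat.sqrt_pos.2 (show 0 < n by omega); omega⟩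
    have h2 : (r + 1) ^ 2 ≤ n := by rw [← hr]; exact Nat.sqrt_le' n
    have h3 : n < (r + 2) ^ 2 := by
      have := Nat.lt_succ_sqrt' n
      rw [hr] at this
      exact this
    have h4 : 11 ≤ Nat.sqrt n := by
      rw [Nat.le_sqrt]; omega
    have h5 : 10 ≤ r := by omega
    refine main n d k 1 r 3 h2 ?_ hd hs f hf
    have h6 := six_mul_choose r
    simp only [Nat.add_sub_cancel, Nat.choose_one_right, show 3 - 2 = 1 by rfl]
    nlinarith [h6, h3, h5, Nat.mul_le_mul h5 h5, mul_nonneg (Nat.zero_le r) (Nat.zero_le r)]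

theorem numeric (e r n : ℕ) (he : 1 ≤ e) (hr : 2 * (2 * e + 1).factorial * 4 ^ e < r + 1)
    (hn : n < (r + 2) ^ 2) :
    (n + e - 1).choose e + (r + 1) * (r + (2 * e + 1 - 2)).choose (2 * e + 1 - 2) <
      (r + (2 * e + 1)).choose (2 * e + 1) := by
  have hfac : 2 * e + 1 ≤ (2 * e + 1).factorial := Nat.self_le_factorial _
  have h4 : 1 ≤ 4 ^ e := Nat.one_le_pow _ _ (by norm_num)
  have her : 4 * e + 2 < r + 1 := by nlinarith
  have h1 : (n + e - 1).choose e ≤ (2 * (r + 1)) ^ (2 * e) := by
    refine (Nat.choose_le_pow _ _).trans ?_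
    rw [pow_mul]
    apply Nat.pow_le_pow_left
    have : n + e - 1 ≤ (r + 2) ^ 2 + r := by omega
    nlinarith
  have h2 : (r + 1) * (r + (2 * e + 1 - 2)).choose (2 * e + 1 - 2) ≤ (2 * (r + 1)) ^ (2 * e) := by
    have e1 : 2 * e = (2 * e + 1 - 2) + 1 := by omega
    conv_rhs => rw [e1, pow_succ, mul_comm]
    refine Nat.mul_le_mul (by omega) ((Nat.choose_le_pow _ _).trans ?_)
    apply Nat.pow_le_pow_left
    omega
  have h3 : (r + 1) ^ (2 * e + 1) ≤ (2 * e + 1).factorial * (r + (2 * e + 1)).choose (2 * e + 1) := by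
    rw [← Nat.ascFactorial_eq_factorial_mul_choose]
    exact Nat.pow_succ_le_ascFactorial _ _
  have h5 : (2 * e + 1).factorial * (2 * (2 * (r + 1)) ^ (2 * e)) < (r + 1) ^ (2 * e + 1) := by
    have e2 : (2 * (r + 1)) ^ (2 * e) = 4 ^ e * (r + 1) ^ (2 * e) := by
      rw [mul_pow, pow_mul]; norm_num
    rw [e2, pow_succ]
    have hp : 0 < (r + 1) ^ (2 * e) := by positivity
    calc (2 * e + 1).factorial * (2 * (4 ^ e * (r + 1) ^ (2 * e)))
        = (r + 1) ^ (2 * e) * (2 * (2 * e + 1).factorial * 4 ^ e) := by ring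
      _ < (r + 1) ^ (2 * e) * (r + 1) := Nat.mul_lt_mul_of_pos_left hr hp
  have h6 : (2 * e + 1).factorial * (2 * (2 * (r + 1)) ^ (2 * e)) <
      (2 * e + 1).factorial * (r + (2 * e + 1)).choose (2 * e + 1) := lt_of_lt_of_le h5 h3
  have h7 := Nat.lt_of_mul_lt_mul_left h6
  omega

theorem large_degree {K : Type*} [Field K] [Infinite K] (e : ℕ) (he : 1 ≤ e) :
    ∃ N : ℕ, ∀ n d k : ℕ, N ≤ n → 2 ≤ d → e + 1 ≤ d * k →
      ∀ f : Fin (n + 1) → MvPolynomial (Fin n) K, (∀ i, (f i).IsHomogeneous d) →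
        hilb (Ideal.span (Set.range f) ^ k) (d * k + e) ≠ 0 := by
  refine ⟨(2 * (2 * e + 1).factorial * 4 ^ e + 1) ^ 2, fun n d k hn hd hk f hf => ?_⟩
  have h0 : 0 < n := lt_of_lt_of_le (by positivity) hn
  obtain ⟨r, hr⟩ : ∃ r, Nat.sqrt n = r + 1 :=
    ⟨Nat.sqrt n - 1, by have := Nat.sqrt_pos.2 h0; omega⟩
  have h2 : (r + 1) ^ 2 ≤ n := by rw [← hr]; exact Nat.sqrt_le' n
  have h3 : n < (r + 2) ^ 2 := by
    have := Nat.lt_succ_sqrt' n
    rw [hr] at this
    exact this
  have h4 : 2 * (2 * e + 1).factorial * 4 ^ e + 1 ≤ Nat.sqrt n := by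
    rw [Nat.le_sqrt']; exact hn
  exact main n d k e r (2 * e + 1) h2 (numeric e r n he (by omega) h3) hd (by omega) f hf

/-- **The prediction for the Hilbert series of the powers of `n + 1` forms fails in large
dimension.** Let `K` be an infinite field, for instance `ℂ`.

1. If `n = 81, 82, 83`, or `100 ≤ n ≤ 119`, or `n ≥ 121`, then for all `d ≥ 2`, all `k ≥ 1` and
ALL forms `f_1, …, f_{n+1}` of degree `d` in `n` variables (in particular for general ones) the
algebra `S/(f_1, …, f_{n+1})^k` does not vanish in degree `d k + 1`, and its Hilbert series is not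
`H_{n,d,k}`.

2. For every `e ≥ 1` there is `N` such that for all `n ≥ N`, `d ≥ 2`, `k` with `d k > e` and ALL
forms `f_1, …, f_{n+1}` of degree `d` the algebra does not vanish in degree `d k + e`. -/
theorem result {K : Type*} [Field K] [Infinite K] :
    (∀ n d k : ℕ, InRange n → 2 ≤ d → 1 ≤ k →
      ∀ f : Fin (n + 1) → MvPolynomial (Fin n) K, (∀ i, (f i).IsHomogeneous d) →
        hilb (Ideal.span (Set.range f) ^ k) (d * k + 1) ≠ 0 ∧
        hilbertSeries (Ideal.span (Set.range f) ^ k) ≠ predicted n d k) ∧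
    (∀ e : ℕ, 1 ≤ e → ∃ N : ℕ, ∀ n d k : ℕ, N ≤ n → 2 ≤ d → e + 1 ≤ d * k →
      ∀ f : Fin (n + 1) → MvPolynomial (Fin n) K, (∀ i, (f i).IsHomogeneous d) →
        hilb (Ideal.span (Set.range f) ^ k) (d * k + e) ≠ 0) := by
  refine ⟨fun n d k hn hd hk f hf => ?_, fun e he => large_degree e he⟩
  have h1 := degree_succ n d k hn hd hk f hf
  refine ⟨h1, fun h => h1 ?_⟩
  have h2 := congrArg (PowerSeries.coeff (d * k + 1)) h
  rw [hilbertSeries, predicted, PowerSeries.coeff_mk, PowerSeries.coeff_mk, if_neg (by omega),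
    if_neg (by omega)] at h2
  exact_mod_cast h2

end Pool.Agent.Results.MP_c355a0_ag.LargeDimension
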